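import Pool.Agent.D0H11.GF.StmB
import Pool.Agent.W65.FS.Lower

/-! # GF: RLOW -/

set_option autoImplicit false

namespace Pool.Agent.D0H87.GF

open Finset Filter
open Pool.Agent.D0H11.GF

/-- the number of multiples -/
theorem card_mult (N d : ℕ) (_hd : 0 < d) :
    (((Icc 1 N).filter fun n => d ∣ n).card : ℝ) ≤ N / d := by
  have h1 : ((Icc 1 N).filter fun n => d ∣ n).card = N / d := by
    rw [← Nat.card_multiples' N d]
    congr 1
    ext n
    simp only [mem_filter, mem_Icc, mem_range]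
    constructor
    · rintro ⟨⟨h1, h2⟩, h3⟩
      exact ⟨by omega, by omega, h3⟩
    · rintro ⟨h1, h2, h3⟩
      exact ⟨⟨by omega, by omega⟩, h3⟩
  rw [h1]
  exact Nat.cast_div_le

theorem sum_tau (N : ℕ) : ∑ n ∈ Icc 1 N, (n.divisors.card : ℝ) ≤ N * (1 + Real.log N) := by
  have h1 : ∀ n ∈ Icc 1 N, (n.divisors.card : ℝ) =
      ∑ d ∈ Icc 1 N, if d ∣ n then (1 : ℝ) else 0 := by
    intro n hn
    rw [mem_Icc] at hn
    rw [Finset.sum_boole]
    congr 2
    ext d
    simp only [Nat.mem_divisors, mem_filter, mem_Icc]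
    constructor
    · rintro ⟨h1, h2⟩
      exact ⟨⟨Nat.pos_of_dvd_of_pos h1 hn.1, (Nat.le_of_dvd hn.1 h1).trans hn.2⟩, h1⟩
    · rintro ⟨_, h2⟩
      exact ⟨h2, by omega⟩
  rw [Finset.sum_congr rfl h1, Finset.sum_comm]
  have h2 : ∀ d ∈ Icc 1 N, ∑ n ∈ Icc 1 N, (if d ∣ n then (1 : ℝ) else 0) ≤ N * (d : ℝ)⁻¹ := by
    intro d hd
    rw [mem_Icc] at hd
    rw [Finset.sum_boole, ← div_eq_mul_inv]
    exact card_mult N d hd.1
  refine (Finset.sum_le_sum h2).trans ?_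
  rw [← Finset.mul_sum]
  refine mul_le_mul_of_nonneg_left ?_ (Nat.cast_nonneg _)
  have h3 := harmonic_le_one_add_log N
  rw [harmonic_eq_sum_Icc] at h3
  push_cast at h3
  exact h3

theorem sph_lower (n : ℕ) (hn : Odd n) :
    (n : ℝ) ≤ (sph n).card * (n.divisors.card : ℝ) ^ 2 := by
  have hn0 : 0 < n := hn.pos
  have : NeZero n := ⟨hn0.ne'⟩
  have h1 : n ≤ (Pool.Agent.W65.FS.preps n).card * n.divisors.card ^ 2 :=
    (Pool.Agent.W65.FS.Fset_lower n hn).trans (Nat.mul_le_mul_right _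
      ((Pool.Agent.W65.FS.Fset_le n hn).trans (Pool.Agent.W65.FS.sol_le n hn)))
  have h2 : (Pool.Agent.W65.FS.preps n).card ≤ (sph n).card := by
    refine Finset.card_le_card fun X hX => ?_
    have h3 : X ∈ Pool.Agent.W65.FS.reps n := (Finset.mem_filter.1 hX).1
    exact h3
  have h3 : n ≤ (sph n).card * n.divisors.card ^ 2 := h1.trans (Nat.mul_le_mul_right _ h2)
  exact_mod_cast h3

theorem t_RLOW : S_RLOW := by
  classical
  intro A
  refine ⟨(A + 1) + 2 * (A + 3), ?_⟩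
  have e1 : ∀ᶠ N : ℕ in atTop, (2 : ℝ) ≤ Real.log N :=
    (Real.tendsto_log_atTop.comp tendsto_natCast_atTop_atTop).eventually_ge_atTop 2
  filter_upwards [e1] with N hL
  set L : ℝ := Real.log N with hLdef
  have hL0 : 0 < L := by linarith
  have hN0 : (0 : ℝ) ≤ N := Nat.cast_nonneg _
  set S1 : Finset ℕ := (Icc 1 N).filter fun n : ℕ => (n : ℝ) < N / L ^ (A + 1) with hS1
  set S2 : Finset ℕ := (Icc 1 N).filter fun n : ℕ => L ^ (A + 3) < (n.divisors.card : ℝ) with hS2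
  have hsub : ((Icc 1 N).filter fun n => Odd n ∧
      ((sph n).card : ℝ) < (N : ℝ) / L ^ ((A + 1) + 2 * (A + 3))) ⊆ S1 ∪ S2 := by
    intro n hn
    obtain ⟨hn1, hodd, hn2⟩ := Finset.mem_filter.1 hn
    rw [Finset.mem_union]
    by_contra hcon
    rw [not_or] at hcon
    have h1 : (N : ℝ) / L ^ (A + 1) ≤ n := by
      by_contra h
      exact hcon.1 (Finset.mem_filter.2 ⟨hn1, not_le.1 h⟩)
    have h2 : (n.divisors.card : ℝ) ≤ L ^ (A + 3) := by
      by_contra h
      exact hcon.2 (Finset.mem_filter.2 ⟨hn1, not_le.1 h⟩)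
    have h3 := sph_lower n hodd
    have h4 : (n.divisors.card : ℝ) ^ 2 ≤ L ^ (2 * (A + 3)) := by
      rw [mul_comm 2, pow_mul]
      exact pow_le_pow_left₀ (Nat.cast_nonneg _) h2 2
    have h5 : (N : ℝ) / L ^ (A + 1) ≤ (sph n).card * L ^ (2 * (A + 3)) :=
      h1.trans (h3.trans (mul_le_mul_of_nonneg_left h4 (Nat.cast_nonneg _)))
    rw [div_le_iff₀ (by positivity)] at h5
    rw [lt_div_iff₀ (by positivity), pow_add] at hn2
    have h6 : ((sph n).card : ℝ) * (L ^ (A + 1) * L ^ (2 * (A + 3))) =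
        (sph n).card * L ^ (2 * (A + 3)) * L ^ (A + 1) := by ring
    rw [h6] at hn2
    linarith
  have hc1 : (S1.card : ℝ) ≤ N / L ^ (A + 1) := by
    have h1 : S1 ⊆ Icc 1 ⌊(N : ℝ) / L ^ (A + 1)⌋₊ := by
      intro n hn
      obtain ⟨hn1, hn2⟩ := Finset.mem_filter.1 hn
      rw [mem_Icc] at hn1 ⊢
      exact ⟨hn1.1, Nat.le_floor hn2.le⟩
    have h2 := Finset.card_le_card h1
    rw [Nat.card_Icc, Nat.add_sub_cancel] at h2
    exact (Nat.cast_le.2 h2).trans (Nat.floor_le (by positivity))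
  have hc2 : (S2.card : ℝ) ≤ N * (1 + L) / L ^ (A + 3) := by
    rw [le_div_iff₀ (by positivity)]
    have h1 : (S2.card : ℝ) * L ^ (A + 3) ≤ ∑ n ∈ S2, (n.divisors.card : ℝ) := by
      rw [← nsmul_eq_mul]
      exact Finset.card_nsmul_le_sum _ _ _ fun n hn => (Finset.mem_filter.1 hn).2.le
    have h2 : ∑ n ∈ S2, (n.divisors.card : ℝ) ≤ ∑ n ∈ Icc 1 N, (n.divisors.card : ℝ) :=
      Finset.sum_le_sum_of_subset_of_nonneg (Finset.filter_subset _ _)
        fun _ _ _ => Nat.cast_nonneg _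
    exact h1.trans (h2.trans (sum_tau N))
  have hc : ((((Icc 1 N).filter fun n => Odd n ∧
      ((sph n).card : ℝ) < (N : ℝ) / L ^ ((A + 1) + 2 * (A + 3))).card : ℕ) : ℝ) ≤
      S1.card + S2.card := by
    have := (Finset.card_le_card hsub).trans (Finset.card_union_le _ _)
    exact_mod_cast this
  have h1 : (N : ℝ) / L ^ (A + 1) ≤ N / L ^ A / 2 := by
    rw [pow_succ, ← div_div]
    exact div_le_div_of_nonneg_left (by positivity) (by norm_num) hL
  have h2 : (N : ℝ) * (1 + L) / L ^ (A + 3) ≤ N / L ^ A * (3 / 8) := by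
    have h3 : (N : ℝ) * (1 + L) / L ^ (A + 3) = N / L ^ A * ((1 + L) / L ^ 3) := by
      rw [pow_add]
      field_simp
    rw [h3]
    refine mul_le_mul_of_nonneg_left ?_ (by positivity)
    rw [div_le_iff₀ (by positivity)]
    nlinarith [mul_nonneg (sub_nonneg.2 hL) (sub_nonneg.2 hL), pow_pos hL0 3,
      mul_nonneg (mul_nonneg (sub_nonneg.2 hL) (sub_nonneg.2 hL)) hL0.le]
  have h3 : 0 ≤ (N : ℝ) / L ^ A := by positivity
  have h4 := hc.trans (add_le_add (hc1.trans h1) (hc2.trans h2))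
  linarith

end Pool.Agent.D0H87.GF
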